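import Mathlib

/-! # Polynomials in coordinates

`k` is a field inside `ℂ`.  Variables: `Sum.inl (i, j)` is the coefficient of `l j` in the `i`-th
coordinate of the point, `Sum.inr s` is the coefficient of the polynomial `u s`. -/

open MvPolynomial Module

namespace MP60829e.TE

set_option linter.unusedSectionVars false

variable {k : Type} [Field k] [Algebra k ℂ]

/-- Coefficientwise application of a linear form. -/
noncomputable def phs {σ : Type} (φ : ℂ →ₗ[k] k) (f : MvPolynomial σ ℂ) : MvPolynomial σ k :=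
  ∑ a ∈ f.support, monomial a (φ (coeff a f))

theorem coeff_phs {σ : Type} (φ : ℂ →ₗ[k] k) (f : MvPolynomial σ ℂ) (a : σ →₀ ℕ) :
    coeff a (phs φ f) = φ (coeff a f) := by
  classical
  unfold phs
  rw [coeff_sum]
  simp only [coeff_monomial]
  rw [Finset.sum_ite_eq' f.support a]
  split_ifs with h
  · rfl
  · rw [notMem_support_iff.1 h, map_zero]

theorem phs_add {σ : Type} (φ : ℂ →ₗ[k] k) (f g : MvPolynomial σ ℂ) :
    phs φ (f + g) = phs φ f + phs φ g := by
  ext a
  rw [coeff_add, coeff_phs, coeff_phs, coeff_phs, coeff_add, map_add]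

theorem phs_zero {σ : Type} (φ : ℂ →ₗ[k] k) : phs φ (0 : MvPolynomial σ ℂ) = 0 := by
  ext a
  rw [coeff_phs, coeff_zero, coeff_zero, map_zero]

theorem phs_sum {σ ι : Type} (φ : ℂ →ₗ[k] k) (s : Finset ι) (f : ι → MvPolynomial σ ℂ) :
    phs φ (∑ i ∈ s, f i) = ∑ i ∈ s, phs φ (f i) := by
  classical
  induction s using Finset.induction_on with
  | empty => rw [Finset.sum_empty, Finset.sum_empty, phs_zero]
  | insert a s ha ih => rw [Finset.sum_insert ha, Finset.sum_insert ha, phs_add, ih]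

theorem phs_monomial {σ : Type} (φ : ℂ →ₗ[k] k) (a : σ →₀ ℕ) (c : ℂ) :
    phs φ (monomial a c) = monomial a (φ c) := by
  classical
  ext b
  rw [coeff_phs, coeff_monomial, coeff_monomial]
  split_ifs
  · rfl
  · rw [map_zero]

/-- Multiplication by a polynomial over `k`. -/
theorem phs_map_mul {σ : Type} (φ : ℂ →ₗ[k] k) (g : MvPolynomial σ k) (f : MvPolynomial σ ℂ) :
    phs φ (map (algebraMap k ℂ) g * f) = g * phs φ f := by
  classical
  ext a
  rw [coeff_phs, coeff_mul, coeff_mul, map_sum]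
  refine Finset.sum_congr rfl fun x _ => ?_
  rw [coeff_map, coeff_phs, ← Algebra.smul_def, map_smul, smul_eq_mul]

/-- PROOF: on monomials. -/
theorem pderiv_phs {σ : Type} (φ : ℂ →ₗ[k] k) (v : σ) (f : MvPolynomial σ ℂ) :
    pderiv v (phs φ f) = phs φ (pderiv v f) := by
  classical
  induction f using MvPolynomial.induction_on' with
  | monomial a c =>
    rw [phs_monomial, pderiv_monomial, pderiv_monomial, phs_monomial]
    congr 1
    rw [mul_comm c, mul_comm (φ c)]
    have h : ((a v : ℕ) : ℂ) * c = (a v : ℕ) • c := by rw [nsmul_eq_mul]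
    rw [h, map_nsmul, nsmul_eq_mul]
  | add p q hp hq => rw [phs_add, map_add, map_add, phs_add, hp, hq]

/-- The value at a `k`-rational point. -/
theorem eval_phs {σ : Type} (φ : ℂ →ₗ[k] k) (x : σ → k) (f : MvPolynomial σ ℂ) :
    eval x (phs φ f) = φ (eval (fun v => algebraMap k ℂ (x v)) f) := by
  classical
  induction f using MvPolynomial.induction_on' with
  | monomial a c =>
    rw [phs_monomial, eval_monomial, eval_monomial]
    have h : (a.prod fun v e => (algebraMap k ℂ (x v)) ^ e) =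
        algebraMap k ℂ (a.prod fun v e => x v ^ e) := by
      unfold Finsupp.prod
      rw [map_prod]
      exact Finset.prod_congr rfl fun v _ => by rw [map_pow]
    rw [h, mul_comm c, ← Algebra.smul_def, map_smul, smul_eq_mul, mul_comm]
  | add p q hp hq => rw [phs_add, map_add, map_add, map_add, hp, hq]

theorem phs_rename {σ τ : Type} (φ : ℂ →ₗ[k] k) (g : σ → τ) (f : MvPolynomial σ ℂ) :
    phs φ (rename g f) = rename g (phs φ f) := by
  classical
  induction f using MvPolynomial.induction_on' with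
  | monomial a c => rw [phs_monomial, rename_monomial, rename_monomial, phs_monomial]
  | add p q hp hq => rw [phs_add, map_add, map_add, phs_add, hp, hq]

section

variable {n r : ℕ} {κ : Type} [Fintype κ]

/-- The point with coordinates `∑ j, c (i, j) * l j`. -/
noncomputable def pt (l : Fin r → ℂ) (c : Fin n × Fin r → ℂ) : Fin n → ℂ :=
  fun i => ∑ j, c (i, j) * l j

/-- The polynomial `f` at the generic point `w i = ∑ j, c (i, j) * l j`. -/
noncomputable def sub (l : Fin r → ℂ) :
    MvPolynomial (Fin n) ℂ →ₐ[ℂ] MvPolynomial (Fin n × Fin r) ℂ :=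
  aeval fun i => ∑ j, C (l j) * X (i, j)

theorem eval_sub' (l : Fin r → ℂ) (c : Fin n × Fin r → ℂ) (f : MvPolynomial (Fin n) ℂ) :
    eval c (sub l f) = eval (pt l c) f := by
  induction f using MvPolynomial.induction_on with
  | C a =>
    unfold sub
    rw [aeval_C, algebraMap_eq, eval_C, eval_C]
  | add p q hp hq => rw [map_add, map_add, map_add, hp, hq]
  | mul_X p i hp =>
    rw [map_mul, map_mul, map_mul, hp, eval_X]
    congr 1
    unfold sub pt
    rw [aeval_X, map_sum]
    refine Finset.sum_congr rfl fun j _ => ?_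
    rw [map_mul, eval_C, eval_X, mul_comm]

/-- The generic combination `∑ s, q s * u s`, at the generic point; `q s` is the variable
`Sum.inr s`. -/
noncomputable def Fp (l : Fin r → ℂ) (u : κ → MvPolynomial (Fin n) ℂ) :
    MvPolynomial ((Fin n × Fin r) ⊕ κ) ℂ :=
  ∑ s, X (Sum.inr s) * rename Sum.inl (sub l (u s))

theorem eval_Fp (l : Fin r → ℂ) (u : κ → MvPolynomial (Fin n) ℂ)
    (x : (Fin n × Fin r) ⊕ κ → ℂ) :
    eval x (Fp l u) = ∑ s, x (Sum.inr s) * eval (pt l fun v => x (Sum.inl v)) (u s) := by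
  unfold Fp
  rw [map_sum]
  refine Finset.sum_congr rfl fun s _ => ?_
  rw [map_mul, eval_X, eval_rename, eval_sub']
  rfl

/-- The coordinate of `f (w)` with respect to `φ`, `w` the point with coefficients `ξ` in an
extension field of `k`. -/
noncomputable def Lv {Ω : Type} [Field Ω] [Algebra k Ω] (l : Fin r → ℂ) (ξ : Fin n × Fin r → Ω)
    (φ : ℂ →ₗ[k] k) (f : MvPolynomial (Fin n) ℂ) : Ω :=
  aeval ξ (phs φ (sub l f))

theorem Lv_add {Ω : Type} [Field Ω] [Algebra k Ω] (l : Fin r → ℂ) (ξ : Fin n × Fin r → Ω)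
    (φ : ℂ →ₗ[k] k) (f g : MvPolynomial (Fin n) ℂ) :
    Lv l ξ φ (f + g) = Lv l ξ φ f + Lv l ξ φ g := by
  unfold Lv
  rw [map_add, phs_add, map_add]

theorem Lv_zero {Ω : Type} [Field Ω] [Algebra k Ω] (l : Fin r → ℂ) (ξ : Fin n × Fin r → Ω)
    (φ : ℂ →ₗ[k] k) : Lv l ξ φ 0 = 0 := by
  unfold Lv
  rw [map_zero, phs_zero, map_zero]

/-- Multiplication by a natural number. -/
theorem Lv_nsmul {Ω : Type} [Field Ω] [Algebra k Ω] (l : Fin r → ℂ) (ξ : Fin n × Fin r → Ω)
    (φ : ℂ →ₗ[k] k) (N : ℕ) (f : MvPolynomial (Fin n) ℂ) :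
    Lv l ξ φ (N • f) = N * Lv l ξ φ f := by
  induction N with
  | zero => rw [zero_smul, Lv_zero, Nat.cast_zero, zero_mul]
  | succ N ih => rw [add_smul, one_smul, Lv_add, ih, Nat.cast_succ, add_mul, one_mul]

/-- The value on a constant. -/
theorem Lv_C {Ω : Type} [Field Ω] [Algebra k Ω] (l : Fin r → ℂ) (ξ : Fin n × Fin r → Ω)
    (φ : ℂ →ₗ[k] k) (c : ℂ) : Lv l ξ φ (C c) = algebraMap k Ω (φ c) := by
  have h1 : sub l (C c : MvPolynomial (Fin n) ℂ) = monomial 0 c := by
    unfold sub
    rw [aeval_C, algebraMap_eq]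
    rfl
  unfold Lv
  rw [h1, phs_monomial]
  exact aeval_C ξ (φ c)

/-- The value of the generic combination at a point over `Ω`. -/
theorem aeval_Fp {Ω : Type} [Field Ω] [Algebra k Ω] (l : Fin r → ℂ)
    (u : κ → MvPolynomial (Fin n) ℂ) (p : (Fin n × Fin r) ⊕ κ → Ω) (φ : ℂ →ₗ[k] k) :
    aeval p (phs φ (Fp l u)) = ∑ s, p (Sum.inr s) * Lv l (fun v => p (Sum.inl v)) φ (u s) := by
  unfold Fp
  rw [phs_sum, map_sum]
  refine Finset.sum_congr rfl fun s _ => ?_
  have h1 : (X (Sum.inr s) : MvPolynomial ((Fin n × Fin r) ⊕ κ) ℂ) =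
      map (algebraMap k ℂ) (X (Sum.inr s)) := by rw [map_X]
  rw [h1, phs_map_mul, map_mul, aeval_X, phs_rename, aeval_rename]
  rfl

end

end MP60829e.TE
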