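import Mathlib
import Pool.Agent.Lib.MP_60829e_nt.SK.KeyLem

/-! # Dimension counts -/

open Module

namespace MP60829e.TE

/-- PROOF. The linear map `t ↦ (rows i ≠ i0 of ∑ j, t j • η j)` from `k ^ J` to
`k ^ ((n - 1) r)` has a kernel `N` of dimension `≥ card J - (n - 1) r`; the map
`N → ℂ`, `t ↦ ∑ b, (∑ j, t j * η j i0 b) * l b`, is injective (`η` and `l` are independent over
`k`); `Z` is its image, in the span of the `l b`.  For `t ∈ N` the sum of the relations
`t j * h j` is `g i0 * z ∈ M`. -/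
theorem dim_slice {k : Type} [Field k] [Algebra k ℂ] {n r : ℕ} {J : Type} [Fintype J]
    (l : Fin r → ℂ) (hl : LinearIndependent k l) (g : Fin n → ℂ) (M : Submodule k ℂ)
    (η : J → Fin n → Fin r → k) (hη : LinearIndependent k η)
    (h : ∀ j, ∑ i, g i * ∑ b, algebraMap k ℂ (η j i b) * l b ∈ M) (i0 : Fin n) :
    ∃ Z : Submodule k ℂ, Z ≤ Submodule.span k (Set.range l) ∧ (∀ z ∈ Z, g i0 * z ∈ M) ∧
      Fintype.card J ≤ (n - 1) * r + finrank k Z := by
  classical
  -- the combination
  let comb : (J → k) →ₗ[k] (Fin n → Fin r → k) := Fintype.linearCombination k η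
  let R : Type := {i : Fin n // i ≠ i0} → Fin r → k
  let res : (Fin n → Fin r → k) →ₗ[k] R :=
    { toFun := fun x i => x i.1
      map_add' := fun _ _ => rfl
      map_smul' := fun _ _ => rfl }
  let row : (Fin n → Fin r → k) →ₗ[k] ℂ :=
    { toFun := fun x => ∑ b, algebraMap k ℂ (x i0 b) * l b
      map_add' := by
        intro x y
        rw [← Finset.sum_add_distrib]
        refine Finset.sum_congr rfl fun b _ => ?_
        rw [Pi.add_apply, Pi.add_apply, map_add, add_mul]
      map_smul' := by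
        intro c x
        rw [RingHom.id_apply, Finset.smul_sum]
        refine Finset.sum_congr rfl fun b _ => ?_
        rw [Pi.smul_apply, Pi.smul_apply, smul_eq_mul, map_mul, mul_assoc, ← Algebra.smul_def] }
  let N : Submodule k (J → k) := LinearMap.ker (res ∘ₗ comb)
  let ψ : N →ₗ[k] ℂ := (row ∘ₗ comb) ∘ₗ N.subtype
  have hcomb : Function.Injective comb := hη.fintypeLinearCombination_injective
  have hψ : Function.Injective ψ := by
    rw [← LinearMap.ker_eq_bot, LinearMap.ker_eq_bot']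
    intro t ht
    have h1 : (res ∘ₗ comb) (t : J → k) = 0 := t.2
    have h2 : ∑ b, algebraMap k ℂ (comb (t : J → k) i0 b) * l b = 0 := ht
    have h3 : ∀ b, comb (t : J → k) i0 b = 0 := by
      rw [Fintype.linearIndependent_iff] at hl
      apply hl
      rw [← h2]
      refine Finset.sum_congr rfl fun b _ => ?_
      rw [Algebra.smul_def]
    have h4 : comb (t : J → k) = 0 := by
      funext i
      by_cases hi : i = i0
      · subst hi
        funext b
        exact h3 b
      · have h5 := congrFun h1 ⟨i, hi⟩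
        exact h5
    apply Subtype.ext
    apply hcomb
    rw [h4, Submodule.coe_zero, map_zero]
  refine ⟨LinearMap.range ψ, ?_, ?_, ?_⟩
  · rintro _ ⟨t, rfl⟩
    change ∑ b, algebraMap k ℂ (comb (t : J → k) i0 b) * l b ∈ _
    refine Submodule.sum_mem _ fun b _ => ?_
    rw [← Algebra.smul_def]
    exact Submodule.smul_mem _ _ (Submodule.subset_span ⟨b, rfl⟩)
  · rintro _ ⟨t, rfl⟩
    have h1 : (res ∘ₗ comb) (t : J → k) = 0 := t.2
    have h2 : ∑ j, (t : J → k) j • (∑ i, g i * ∑ b, algebraMap k ℂ (η j i b) * l b) ∈ M :=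
      Submodule.sum_mem _ fun j _ => Submodule.smul_mem _ _ (h j)
    have h3 : ∑ j, (t : J → k) j • (∑ i, g i * ∑ b, algebraMap k ℂ (η j i b) * l b) =
        ∑ i, g i * ∑ b, algebraMap k ℂ (comb (t : J → k) i b) * l b := by
      have h4 : ∀ i b, comb (t : J → k) i b = ∑ j, (t : J → k) j * η j i b := by
        intro i b
        change (∑ j, (t : J → k) j • η j) i b = _
        rw [Finset.sum_apply, Finset.sum_apply]
        rfl
      simp only [h4, map_sum, map_mul, Algebra.smul_def, Finset.mul_sum, Finset.sum_mul]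
      rw [Finset.sum_comm]
      refine Finset.sum_congr rfl fun i _ => ?_
      rw [Finset.sum_comm]
      refine Finset.sum_congr rfl fun b _ => ?_
      refine Finset.sum_congr rfl fun j _ => ?_
      ring
    rw [h3, Finset.sum_eq_single i0] at h2
    · exact h2
    · intro i _ hi
      have h5 : comb (t : J → k) i = 0 := congrFun h1 ⟨i, hi⟩
      rw [h5]
      simp
    · intro hi
      exact absurd (Finset.mem_univ i0) hi
  · have h1 := (res ∘ₗ comb).finrank_range_add_finrank_ker
    rw [finrank_fintype_fun_eq_card] at h1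
    have h2 : finrank k (LinearMap.range (res ∘ₗ comb)) ≤ (n - 1) * r := by
      refine (Submodule.finrank_le _).trans ?_
      rw [finrank_pi_fintype]
      simp only [finrank_fintype_fun_eq_card, Fintype.card_fin, Finset.sum_const,
        Finset.card_univ, smul_eq_mul]
      refine Nat.mul_le_mul_right _ (le_of_eq ?_)
      rw [Fintype.card_subtype_compl, Fintype.card_fin, Fintype.card_subtype_eq]
    have h3 : finrank k (LinearMap.range ψ) = finrank k N :=
      LinearMap.finrank_range_of_inj hψ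
    have h4 : finrank k N = finrank k (LinearMap.ker (res ∘ₗ comb)) := rfl
    omega

/-- PROOF: `z ↦ x * z` is injective and maps `Z` to `G`. -/
theorem dim_inj {k : Type} [Field k] [Algebra k ℂ] (Z G : Submodule k ℂ)
    [FiniteDimensional k G] (x : ℂ) (hx : x ≠ 0) (h : ∀ z ∈ Z, x * z ∈ G) :
    finrank k Z ≤ finrank k G := by
  let f : Z →ₗ[k] G := ((LinearMap.mulLeft k x) ∘ₗ Z.subtype).codRestrict G fun z => h z z.2
  have hf : Function.Injective f := by
    intro a b hab
    have e1 : x * (a : ℂ) = x * (b : ℂ) := congrArg Subtype.val hab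
    exact Subtype.ext (mul_left_cancel₀ hx e1)
  exact LinearMap.finrank_le_finrank_of_injective hf

open MP60829e.SK in
/-- PROOF. As `SK.key_rank` with `key_lem` (constant `7`, as `Z ≤ LzOf`): the map
`Z → (ℂ ⧸ LgOf)`, `z ↦ x z`, has image in the image of `G` and a kernel of dimension `≤ 7`. -/
theorem dim_seven {𝕜 : IntermediateField ℚ ℂ} [Algebra.IsAlgebraic ℚ 𝕜] (Z G : Submodule 𝕜 ℂ)
    [FiniteDimensional 𝕜 Z] [FiniteDimensional 𝕜 G] (hZ : Z ≤ LzOf 𝕜) (x : ℂ)
    (hx : ∀ q : 𝕜, x ≠ q) (h : ∀ z ∈ Z, x * z ∈ LgOf 𝕜 ⊔ G) :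
    finrank 𝕜 Z ≤ 7 + finrank 𝕜 G := by
  set F : Submodule 𝕜 (ℂ ⧸ LgOf 𝕜) := G.map (clOf 𝕜) with hF
  have hFd : finrank 𝕜 F ≤ finrank 𝕜 G := Submodule.finrank_map_le _ _
  have hmem : ∀ z : Z, (clOf 𝕜) (x * (z : ℂ)) ∈ F := by
    intro z
    obtain ⟨y, hy, w, hw, hyw⟩ := Submodule.mem_sup.1 (h z z.2)
    refine ⟨w, hw, ?_⟩
    rw [← hyw, map_add, cl_eq_zero.2 hy, zero_add]
  set φ : Z →ₗ[𝕜] F := (((clOf 𝕜) ∘ₗ (LinearMap.mulLeft 𝕜 x)) ∘ₗ Z.subtype).codRestrict F
    hmem with hφ
  have h1 := φ.finrank_range_add_finrank_ker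
  have h2 : finrank 𝕜 (LinearMap.range φ) ≤ finrank 𝕜 F := Submodule.finrank_le _
  have h3 : finrank 𝕜 (LinearMap.ker φ) ≤ 7 := by
    set K : Submodule 𝕜 ℂ := (LinearMap.ker φ).map Z.subtype with hK
    have h4 : finrank 𝕜 K = finrank 𝕜 (LinearMap.ker φ) :=
      (Submodule.equivMapOfInjective Z.subtype Z.injective_subtype _).finrank_eq.symm
    rw [← h4]
    refine key_lem K ?_ x hx ?_
    · rintro z ⟨w, _, rfl⟩
      exact hZ w.2
    · rintro z ⟨w, hw, rfl⟩
      have h5 : φ w = 0 := hw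
      have h6 : (clOf 𝕜) (x * (w : ℂ)) = 0 := congrArg Subtype.val h5
      exact cl_eq_zero.1 h6
  omega

end MP60829e.TE
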